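import Pool.Agent.Helper75.PZ.Stmts

/-! # PZ: the row AN (second copy) -/

set_option autoImplicit false

universe u

namespace Pool.Agent.Helper77.PZ

open Pool.Agent.Helper75.PZ

/-- the product of the conjugates -/
def anN {F M : Type u} [Field F] [Field M] [Algebra F M] (σ : M ≃ₐ[F] M) (m : M) : M :=
  m * σ m * σ (σ m)

theorem anN_mul {F M : Type u} [Field F] [Field M] [Algebra F M] (σ : M ≃ₐ[F] M) (a b : M) :
    anN σ (a * b) = anN σ a * anN σ b := by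
  unfold anN
  rw [map_mul, map_mul]
  ring

theorem anN_ne {F M : Type u} [Field F] [Field M] [Algebra F M] (σ : M ≃ₐ[F] M) {a : M}
    (ha : a ≠ 0) : anN σ a ≠ 0 := by
  have h1 : σ a ≠ 0 := (EmbeddingLike.map_ne_zero_iff (f := σ)).2 ha
  have h2 : σ (σ a) ≠ 0 := (EmbeddingLike.map_ne_zero_iff (f := σ)).2 h1
  exact mul_ne_zero (mul_ne_zero ha h1) h2

theorem anN_zpow {F M : Type u} [Field F] [Field M] [Algebra F M] (σ : M ≃ₐ[F] M)
    (h : ∀ m, σ (σ (σ m)) = m) (k : ℤ) : ∀ m, anN σ ((σ ^ k) m) = anN σ m := by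
  have h1 : ∀ m, anN σ (σ m) = anN σ m := by
    intro m
    unfold anN
    rw [h m]
    ring
  induction k using Int.induction_on with
  | zero =>
    intro m
    rw [zpow_zero, AlgEquiv.one_apply]
  | succ i ih =>
    intro m
    rw [zpow_add_one, AlgEquiv.mul_apply, ih, h1]
  | pred i ih =>
    intro m
    rw [zpow_sub_one, AlgEquiv.mul_apply, ih]
    have h2 := h1 ((σ⁻¹ : M ≃ₐ[F] M) m)
    have h3 : σ ((σ⁻¹ : M ≃ₐ[F] M) m) = m := by
      rw [← AlgEquiv.mul_apply, mul_inv_cancel, AlgEquiv.one_apply]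
    rw [h3] at h2
    exact h2.symm

/-- there are no zero divisors -/
theorem sym_mul0 {F K A M : Type u} [Field F] [Field K] [Field M] [Ring A] [Nontrivial A]
    [Algebra F K] [Algebra K A] [Algebra F M] {σ : M ≃ₐ[F] M} {g : A → G2} {c : A → M}
    (h2 : (2 : F) ≠ 0) (hS : SYM (K := K) σ g c) (x y : A) (hx : x ≠ 0) (hy : y ≠ 0) :
    x * y ≠ 0 := by
  intro h
  have h2K : algebraMap F K 2 ≠ 0 := (map_ne_zero_iff _ (algebraMap F K).injective).2 h2
  have h2M : algebraMap F M 2 = 2 := map_ofNat _ 2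
  obtain ⟨t, ht⟩ : ∃ t : A, t = algebraMap K A (algebraMap F K 2) := ⟨_, rfl⟩
  have ht0 : t ≠ 0 := by
    rw [ht]
    exact (map_ne_zero_iff _ (algebraMap K A).injective).2 h2K
  have htx : t * x ≠ 0 := by
    intro h3
    have h4 : algebraMap K A (algebraMap F K 2)⁻¹ * (t * x) = 0 := by rw [h3, mul_zero]
    rw [ht, ← mul_assoc, ← map_mul, inv_mul_cancel₀ h2K, map_one, one_mul] at h4
    exact hx h4
  have hfs := hS.fs 2 h2
  rw [← ht, h2M] at hfs
  have h4 : n1 (0 : G2) = 0 := rfl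
  have e1 := hS.cmul t x ht0 hx
  rw [hfs.1, hfs.2, h4, zero_mul, zpow_zero, zpow_zero, AlgEquiv.one_apply, mul_one] at e1
  have e2 := hS.gmul t x ht0 hx
  rw [hfs.1, zero_add] at e2
  have e3 := hS.cmul (t * x) y htx hy
  rw [mul_assoc, h, mul_zero, e2, e1] at e3
  have e4 := hS.cmul x y hx hy
  rw [h] at e4
  have e5 : c 0 = 2 * c 0 := by
    calc c 0 = 2 * c x * (-1 : M) ^ (n1 (g x) * n2 (g y)) * (σ ^ (n1 (g x))) (c y) := e3
      _ = 2 * (c x * (-1 : M) ^ (n1 (g x) * n2 (g y)) * (σ ^ (n1 (g x))) (c y)) := by ring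
      _ = 2 * c 0 := by rw [← e4]
  have e6 : c 0 = 0 := by linear_combination -e5
  rw [e6] at e4
  have h5 : (σ ^ (n1 (g x))) (c y) ≠ 0 :=
    (EmbeddingLike.map_ne_zero_iff (f := σ ^ (n1 (g x)))).2 (hS.c0 y hy)
  have h6 : (-1 : M) ^ (n1 (g x) * n2 (g y)) ≠ 0 :=
    zpow_ne_zero _ (neg_ne_zero.2 one_ne_zero)
  exact absurd e4.symm (mul_ne_zero (mul_ne_zero (hS.c0 x hx) h6) h5)

theorem st_AN : ST_AN.{u} := by
  intro F K A M _ _ _ _ _ _ _ _ σ g c h2 hσ hS i j hi hj hij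
  have hji : j * i ≠ 0 := sym_mul0 h2 hS j i hj hi
  have ht : (algebraMap K A (algebraMap F K (-1))) = -1 := by
    rw [map_neg, map_one, map_neg, map_one]
  have hfs := hS.fs (-1) (neg_ne_zero.2 one_ne_zero)
  rw [ht, map_neg, map_one] at hfs
  have hc1 : c (-(j * i)) = -c (j * i) := by
    have h3 := hS.cmul (-1) (j * i) (neg_ne_zero.2 one_ne_zero) hji
    have h4 : n1 (0 : G2) = 0 := rfl
    rw [hfs.1, hfs.2, h4, zero_mul, zpow_zero, zpow_zero, AlgEquiv.one_apply, neg_one_mul] at h3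
    rw [h3]
    ring
  have hc2 := hS.cmul i j hi hj
  have hc3 := hS.cmul j i hj hi
  obtain ⟨a, ha⟩ : ∃ a : ℤ, a = n1 (g i) * n2 (g j) := ⟨_, rfl⟩
  obtain ⟨b, hb⟩ : ∃ b : ℤ, b = n1 (g j) * n2 (g i) := ⟨_, rfl⟩
  rw [← ha] at hc2 ⊢
  rw [← hb] at hc3 ⊢
  rw [hij, hc1, hc3] at hc2
  -- apply the norm
  have hN := congrArg (anN σ) hc2
  rw [← neg_one_mul, anN_mul, anN_mul, anN_mul, anN_mul, anN_mul, anN_zpow σ hσ,
    anN_zpow σ hσ] at hN
  have hneg : anN σ (-1 : M) = -1 := by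
    unfold anN
    rw [map_neg, map_one, map_neg, map_one]
    ring
  rw [hneg] at hN
  by_contra hodd
  rw [Int.not_odd_iff_even] at hodd
  have hab : (-1 : M) ^ a = (-1 : M) ^ b := by
    have h5 : a = (a - b) + b := by ring
    rw [h5, zpow_add₀ (neg_ne_zero.2 one_ne_zero), hodd.neg_one_zpow, one_mul]
  rw [hab] at hN
  have hi0 := anN_ne σ (hS.c0 i hi)
  have hj0 := anN_ne σ (hS.c0 j hj)
  have hb0 : anN σ ((-1 : M) ^ b) ≠ 0 :=
    anN_ne σ (zpow_ne_zero _ (neg_ne_zero.2 one_ne_zero))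
  have h2M : (2 : M) ≠ 0 := by
    have h6 : algebraMap F M 2 = 2 := map_ofNat _ 2
    rw [← h6]
    exact (map_ne_zero_iff _ (algebraMap F M).injective).2 h2
  have h7 : (2 : M) * (anN σ (c i) * anN σ (c j) * anN σ ((-1 : M) ^ b)) = 0 := by
    linear_combination -hN
  exact absurd h7 (mul_ne_zero h2M (mul_ne_zero (mul_ne_zero hi0 hj0) hb0))

end Pool.Agent.Helper77.PZ
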